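import Pool.Agent.H75.QF.Targets
import Pool.Agent.H34.GP.ENG

/-!
# Final form: the encoding by clauses of exact width (`T_ENF`), adapted from
`Pool/Agent/H73/GP/ENS.lean`
-/

set_option autoImplicit false

namespace Pool.Agent.H33.QF

open Finset Pool.Agent.H68.AC Pool.Agent.H68.GP Pool.Agent.H75.QF Pool.Agent.H75.QA

/-- ENF -/
theorem enf : T_ENF := by
  classical
  intro k r ℓ n m w e hk hw hn hrw hwn
  -- the variables
  have hcard : Fintype.card ((Fin k × Fin ℓ) ⊕ Unit) ≤ Fintype.card (Fin n) := by
    simp only [Fintype.card_sum, Fintype.card_prod, Fintype.card_fin, Fintype.card_unit]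
    omega
  obtain ⟨vr⟩ := Function.Embedding.nonempty_of_card_le hcard
  set v₀ : Fin n := vr (Sum.inr ()) with hv₀
  set X : (Fin n → Bool) → Fin k → Fin ℓ → Bool := fun a i u => a (vr (Sum.inl (i, u))) with hX
  set val : Fin k → (Fin n → Bool) → VV k r (Fin ℓ → Bool) := fun j a => pos e (X a) j with hval
  set T : Fin k → Finset (Fin n) := fun j =>
    (univ : Finset (Option (Fin r) × Fin ℓ)).image (fun t => vr (Sum.inl (sc e j t.1, t.2))) with hT
  have hTcard : ∀ j, (T j).card ≤ w := by
    intro j
    refine card_image_le.trans ?_
    simp only [card_univ, Fintype.card_prod, Fintype.card_option, Fintype.card_fin]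
    exact hrw
  have hTv : ∀ j, T j ⊆ univ.erase v₀ := by
    intro j i hi
    rw [mem_erase]
    refine ⟨?_, mem_univ _⟩
    rintro rfl
    obtain ⟨t, _, ht⟩ := mem_image.1 hi
    exact absurd (vr.injective ht) (by simp)
  have hW : ∀ j, ∃ W : Finset (Fin n), T j ⊆ W ∧ W ⊆ univ.erase v₀ ∧ W.card = w := by
    intro j
    apply Finset.exists_subsuperset_card_eq (hTv j) (hTcard j)
    rw [card_erase_of_mem (mem_univ _), card_univ, Fintype.card_fin]
    omega
  choose W hTW hWv hWc using hW
  obtain ⟨σ, inc, h1, h2, h3⟩ := Pool.Agent.H34.GP.T_ENG_holds (VV k r (Fin ℓ → Bool)) k n m w val W v₀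
    hk hw
    (fun j hj => by
      have := hWv j hj
      rw [mem_erase] at this
      exact this.1 rfl) hWc (by
      intro j a b hab
      have e1 : ∀ o u, X a (sc e j o) u = X b (sc e j o) u := by
        intro o u
        apply hab
        apply hTW
        exact mem_image.2 ⟨(o, u), mem_univ _, rfl⟩
      simp only [hval, pos]
      refine Prod.ext rfl ?_
      funext o u
      exact e1 o u)
  refine ⟨σ, inc, h1, ?_, ?_⟩
  · rintro y ⟨x, hxb⟩
    let a : Fin n → Bool := fun i => if h : ∃ t, vr t = i then
      (match h.choose with
        | Sum.inl (i, u) => x i u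
        | Sum.inr _ => true) else false
    have ha : ∀ t, a (vr t) = (match t with
        | Sum.inl (i, u) => x i u
        | Sum.inr _ => true) := by
      intro t
      have h : ∃ t', vr t' = vr t := ⟨t, rfl⟩
      have hc : h.choose = t := vr.injective h.choose_spec
      simp only [a]
      rw [dif_pos h, hc]
    have hXa : X a = x := by
      funext i u
      exact ha (Sum.inl (i, u))
    refine ⟨a, h2 y a (ha (Sum.inr ())) ?_⟩
    intro j
    simp only [hval, hXa]
    exact hxb j
  · intro y g hg a
    have h4 := hg (X a)
    have h5 : (univ.filter (fun j => y (val j a) = true)).card +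
        (univ.filter (fun j => y (val j a) = false)).card = k := by
      have := Finset.card_filter_add_card_filter_not (s := (univ : Finset (Fin k)))
        (fun j => y (val j a) = true)
      rw [card_univ, Fintype.card_fin] at this
      simpa only [Bool.not_eq_true] using this
    have h6 : k - g ≤ (univ.filter (fun j => y (val j a) = false)).card := by
      have h7 : (univ.filter (fun j => y (val j a) = true)).card ≤ g := h4
      omega
    exact (Nat.mul_le_mul_left _ h6).trans (h3 y a)

end Pool.Agent.H33.QF
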