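import Pool.Agent.H75.QF.Targets

/-!
# Final form: the parameters (`T_PARF`)
-/

set_option autoImplicit false

namespace Pool.Agent.H33.QF

open Finset Filter Pool.Agent.H68.AC Pool.Agent.H75.QA Pool.Agent.H75.QG Pool.Agent.H75.QF

theorem two_pow_eq (m : ℕ) : (2 : ℝ) ^ m = (2 : ℝ) ^ (m : ℝ) := (Real.rpow_natCast 2 m).symm

theorem pow_pow_eq (l m : ℕ) : ((2 : ℝ) ^ l) ^ m = (2 : ℝ) ^ ((l : ℝ) * m) := by
  rw [← pow_mul, two_pow_eq]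
  push_cast
  rfl

theorem e2_mono {x y : ℝ} (h : x ≤ y) : (2 : ℝ) ^ x ≤ (2 : ℝ) ^ y :=
  Real.rpow_le_rpow_of_exponent_le (by norm_num) h

theorem e2_pos (x : ℝ) : (0 : ℝ) < (2 : ℝ) ^ x := Real.rpow_pos_of_pos (by norm_num) x

theorem e2_add (x y : ℝ) : (2 : ℝ) ^ x * (2 : ℝ) ^ y = (2 : ℝ) ^ (x + y) :=
  (Real.rpow_add (by norm_num) x y).symm

theorem e2_sub (x y : ℝ) : (2 : ℝ) ^ x / (2 : ℝ) ^ y = (2 : ℝ) ^ (x - y) :=
  (Real.rpow_sub (by norm_num) x y).symm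

theorem B_le {l d C1 D t : ℕ} {p q : ℝ} (hp : p = 1 / ((2 : ℝ) ^ l) ^ C1)
    (hq : q = p / (64 * ((t : ℝ) + 1) * D)) (hD : 1 ≤ D) (hd : 1 ≤ d)
    (hg : 64 * ((t : ℝ) + 1) * D ≤ 2 ^ l) :
    0 ≤ 2 * (D : ℝ) / q ^ d ∧ 2 * (D : ℝ) / q ^ d ≤ ((2 : ℝ) ^ l) ^ ((C1 + 2) * d) := by
  have hD' : (1 : ℝ) ≤ D := by exact_mod_cast hD
  have ht0 : (0 : ℝ) ≤ t := Nat.cast_nonneg t
  set N : ℝ := (2 : ℝ) ^ l with hN
  have hN1 : 1 ≤ N := one_le_pow₀ (by norm_num)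
  set G : ℝ := 64 * ((t : ℝ) + 1) * D with hG
  have hG0 : 0 < G := by positivity
  have h2D : 2 * (D : ℝ) ≤ N := by
    have : 2 * (D : ℝ) ≤ G := by rw [hG]; nlinarith
    linarith
  have hp0 : 0 < p := by rw [hp]; positivity
  have hq0 : 0 < q := by rw [hq]; positivity
  have hqi : 1 / q ≤ N ^ (C1 + 1) := by
    rw [hq, hp, one_div, inv_div, one_div, div_inv_eq_mul, pow_succ, mul_comm]
    exact mul_le_mul_of_nonneg_left hg (by positivity)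
  refine ⟨by positivity, ?_⟩
  have h1 : 2 * (D : ℝ) / q ^ d = 2 * D * (1 / q) ^ d := by
    rw [one_div, inv_pow, div_eq_mul_inv]
  rw [h1]
  have h2 : (1 / q) ^ d ≤ (N ^ (C1 + 1)) ^ d := pow_le_pow_left₀ (by positivity) hqi d
  calc 2 * (D : ℝ) * (1 / q) ^ d ≤ N * (N ^ (C1 + 1)) ^ d :=
        mul_le_mul h2D h2 (by positivity) (by positivity)
    _ = N ^ (1 + (C1 + 1) * d) := by rw [← pow_mul, pow_add, pow_one]
    _ ≤ N ^ ((C1 + 2) * d) := by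
        apply pow_le_pow_right₀ hN1
        have : (C1 + 2) * d = (C1 + 1) * d + d := by ring
        omega

theorem X1_le {l d C1 h k bk n : ℕ} {ε s B Z : ℝ} (hB0 : 0 ≤ B)
    (hB : B ≤ ((2 : ℝ) ^ l) ^ ((C1 + 2) * d)) (hs : s ≤ 2 ^ ((1 - ε) * n))
    (hE : (k : ℝ) + (1 - ε) * n + 2 * l * (C1 + 2) * d * h - l * (bk + 1) ≤ -Z) :
    (2 : ℝ) ^ k * (s * (B ^ (2 * h) / ((2 : ℝ) ^ l) ^ (bk + 1))) ≤ 2 ^ (-Z) := by
  have h1 : B ^ (2 * h) ≤ (2 : ℝ) ^ ((l : ℝ) * ((C1 + 2) * d) * (2 * h)) := by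
    refine (pow_le_pow_left₀ hB0 hB _).trans (le_of_eq ?_)
    rw [← pow_mul, pow_pow_eq]
    congr 1
    push_cast
    ring
  have h2 : ((2 : ℝ) ^ l) ^ (bk + 1) = (2 : ℝ) ^ ((l : ℝ) * (bk + 1)) := by
    rw [pow_pow_eq]; push_cast; rfl
  rw [h2, two_pow_eq k]
  calc (2 : ℝ) ^ (k : ℝ) * (s * (B ^ (2 * h) / (2 : ℝ) ^ ((l : ℝ) * (bk + 1))))
      ≤ (2 : ℝ) ^ (k : ℝ) * ((2 : ℝ) ^ ((1 - ε) * n) *
        ((2 : ℝ) ^ ((l : ℝ) * ((C1 + 2) * d) * (2 * h)) / (2 : ℝ) ^ ((l : ℝ) * (bk + 1)))) := by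
        gcongr
    _ = (2 : ℝ) ^ ((k : ℝ) + ((1 - ε) * n + ((l : ℝ) * ((C1 + 2) * d) * (2 * h) -
          (l : ℝ) * (bk + 1)))) := by rw [e2_sub, e2_add, e2_add]
    _ ≤ 2 ^ (-Z) := e2_mono (by linarith)

theorem X3_le {l d C1 h k γ h₁ : ℕ} {B Z : ℝ} (hB0 : 0 ≤ B)
    (hB : B ≤ ((2 : ℝ) ^ l) ^ ((C1 + 2) * d))
    (hE : (k : ℝ) + l * (C1 + 2) * d * h - l * (γ * h₁) ≤ -Z) :
    (2 : ℝ) ^ k * (B ^ h / ((2 : ℝ) ^ l) ^ (γ * h₁)) ≤ 2 ^ (-Z) := by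
  have h1 : B ^ h ≤ (2 : ℝ) ^ ((l : ℝ) * ((C1 + 2) * d) * h) := by
    refine (pow_le_pow_left₀ hB0 hB _).trans (le_of_eq ?_)
    rw [← pow_mul, pow_pow_eq]
    congr 1
    push_cast
    ring
  have h2 : ((2 : ℝ) ^ l) ^ (γ * h₁) = (2 : ℝ) ^ ((l : ℝ) * (γ * h₁)) := by
    rw [pow_pow_eq]; push_cast; rfl
  rw [h2, two_pow_eq k]
  calc (2 : ℝ) ^ (k : ℝ) * (B ^ h / (2 : ℝ) ^ ((l : ℝ) * (γ * h₁)))
      ≤ (2 : ℝ) ^ (k : ℝ) * ((2 : ℝ) ^ ((l : ℝ) * ((C1 + 2) * d) * h) /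
        (2 : ℝ) ^ ((l : ℝ) * (γ * h₁))) := by
        gcongr
    _ = (2 : ℝ) ^ ((k : ℝ) + ((l : ℝ) * ((C1 + 2) * d) * h - (l : ℝ) * (γ * h₁))) := by
        rw [e2_sub, e2_add]
    _ ≤ 2 ^ (-Z) := e2_mono (by linarith)

theorem X2_le {l d C1 k γ D : ℕ} {q ν Z : ℝ} (hB0 : 0 ≤ 2 * (D : ℝ) / q ^ d)
    (hB : 2 * (D : ℝ) / q ^ d ≤ ((2 : ℝ) ^ l) ^ ((C1 + 2) * d)) (hZ : 0 ≤ Z)
    (hk : (k : ℝ) ≤ 2 ^ ν) (hE : 1 + ν + l * (C1 + 2) * d - l * γ ≤ -Z) :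
    (1 + 2 * (D : ℝ) / (q ^ d * ((2 : ℝ) ^ l) ^ γ)) ^ k - 1 ≤ 2 ^ (-Z) := by
  set v : ℝ := 2 * (D : ℝ) / (q ^ d * ((2 : ℝ) ^ l) ^ γ) with hv
  have hv1 : v = 2 * (D : ℝ) / q ^ d / ((2 : ℝ) ^ l) ^ γ := by rw [hv, div_div]
  have hv0 : 0 ≤ v := by rw [hv1]; positivity
  have hv2 : v ≤ (2 : ℝ) ^ ((l : ℝ) * (C1 + 2) * d - l * γ) := by
    rw [hv1, pow_pow_eq l γ]
    have h1 : 2 * (D : ℝ) / q ^ d ≤ (2 : ℝ) ^ ((l : ℝ) * (C1 + 2) * d) := by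
      refine hB.trans (le_of_eq ?_)
      rw [pow_pow_eq]
      congr 1
      push_cast
      ring
    rw [← e2_sub]
    gcongr
  have hkv : k * v ≤ (2 : ℝ) ^ (-Z - 1) := by
    calc k * v ≤ (2 : ℝ) ^ ν * (2 : ℝ) ^ ((l : ℝ) * (C1 + 2) * d - l * γ) :=
          mul_le_mul hk hv2 hv0 (e2_pos _).le
      _ = (2 : ℝ) ^ (ν + ((l : ℝ) * (C1 + 2) * d - l * γ)) := e2_add _ _
      _ ≤ (2 : ℝ) ^ (-Z - 1) := e2_mono (by linarith)
  have hkv0 : 0 ≤ k * v := by positivity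
  have hhalf : (2 : ℝ) ^ (-Z - 1) ≤ 1 / 2 := by
    calc (2 : ℝ) ^ (-Z - 1) ≤ (2 : ℝ) ^ (-1 : ℝ) := e2_mono (by linarith)
      _ = 1 / 2 := by rw [Real.rpow_neg_one]; norm_num
  have h1 : (1 + v) ^ k ≤ Real.exp (k * v) := by
    rw [Real.exp_nat_mul]
    apply pow_le_pow_left₀ (by linarith)
    rw [add_comm]
    exact Real.add_one_le_exp v
  have h2 : Real.exp (k * v) ≤ 1 + 2 * (k * v) := by
    have h3 := Real.exp_bound_div_one_sub_of_interval hkv0 (by linarith)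
    refine h3.trans ?_
    rw [div_le_iff₀ (by linarith)]
    nlinarith
  have h4 : 2 * (k * v) ≤ 2 * (2 : ℝ) ^ (-Z - 1) := by linarith
  have h5 : 2 * (2 : ℝ) ^ (-Z - 1) = (2 : ℝ) ^ (-Z) := by
    rw [Real.rpow_sub (by norm_num), Real.rpow_one]
    ring
  linarith

theorem deep_le {k D t n : ℕ} {ε s lam Z : ℝ} (ht : 1 ≤ t) (hlam : (2 : ℝ) ^ lam = t)
    (hs : s ≤ 2 ^ ((1 - ε) * n))
    (hE : (t : ℝ) + k + (1 - ε) * n + k * (5 + lam) - D ≤ -Z) :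
    (2 : ℝ) ^ t * (2 ^ k * (s * (3 / 2 * (16 * ((t : ℝ) + 1)) ^ k / 2 ^ (D + 1)))) ≤ 2 ^ (-Z) := by
  have ht1 : (1 : ℝ) ≤ t := by exact_mod_cast ht
  have h1 : 16 * ((t : ℝ) + 1) ≤ (2 : ℝ) ^ (5 + lam) := by
    rw [← e2_add, hlam]
    have : (2 : ℝ) ^ (5 : ℝ) = 32 := by
      rw [show (5 : ℝ) = ((5 : ℕ) : ℝ) by norm_num, Real.rpow_natCast]; norm_num
    rw [this]
    linarith
  have h2 : (16 * ((t : ℝ) + 1)) ^ k ≤ (2 : ℝ) ^ (k * (5 + lam)) := by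
    refine (pow_le_pow_left₀ (by positivity) h1 k).trans (le_of_eq ?_)
    rw [← Real.rpow_natCast, ← Real.rpow_mul (by norm_num)]
    congr 1
    ring
  have h3 : (2 : ℝ) ^ (D + 1) = (2 : ℝ) ^ ((D : ℝ) + 1) := by
    rw [two_pow_eq]; push_cast; rfl
  rw [h3, two_pow_eq t, two_pow_eq k]
  calc (2 : ℝ) ^ (t : ℝ) * ((2 : ℝ) ^ (k : ℝ) * (s * (3 / 2 * (16 * ((t : ℝ) + 1)) ^ k /
        (2 : ℝ) ^ ((D : ℝ) + 1))))
      ≤ (2 : ℝ) ^ (t : ℝ) * ((2 : ℝ) ^ (k : ℝ) * ((2 : ℝ) ^ ((1 - ε) * n) *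
        ((2 : ℝ) ^ (1 : ℝ) * (2 : ℝ) ^ (k * (5 + lam)) / (2 : ℝ) ^ ((D : ℝ) + 1)))) := by
        have h4 : (3 / 2 : ℝ) ≤ (2 : ℝ) ^ (1 : ℝ) := by rw [Real.rpow_one]; norm_num
        gcongr
    _ = (2 : ℝ) ^ ((t : ℝ) + (k + ((1 - ε) * n + (1 + k * (5 + lam) - (D + 1))))) := by
        rw [e2_add 1, e2_sub, e2_add, e2_add, e2_add]
    _ ≤ 2 ^ (-Z) := e2_mono (by linarith)

theorem null_le {l C1 k th : ℕ} {p Z : ℝ} (hp : p = 1 / ((2 : ℝ) ^ l) ^ C1)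
    (hE : (l : ℝ) * k + k - C1 * l * (th + 1) ≤ -Z) :
    ((2 : ℝ) ^ l) ^ k * 2 ^ k * p ^ (th + 1) ≤ 2 ^ (-Z) := by
  have h1 : p ^ (th + 1) = (2 : ℝ) ^ (-(C1 * l * ((th : ℝ) + 1))) := by
    rw [hp, one_div, inv_pow, ← pow_mul, pow_pow_eq, Real.rpow_neg (by norm_num)]
    congr 2
    push_cast
    ring
  rw [h1, pow_pow_eq, two_pow_eq k, e2_add, e2_add]
  exact e2_mono (by linarith)

theorem final_le {ε lam w T X1 X2 X3 X4 : ℝ}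
    (hT : T ≤ 2 ^ ((1 / 2 - ε) * w))
    (h1 : X1 ≤ 2 ^ (-(11 + 2 * lam + (1 - 2 * ε) * w)))
    (h2 : X2 ≤ 2 ^ (-(11 + 2 * lam + (1 - 2 * ε) * w)))
    (h3 : X3 ≤ 2 ^ (-(11 + 2 * lam + (1 - 2 * ε) * w)))
    (h4 : X4 ≤ 2 ^ (-(11 + 2 * lam + (1 - 2 * ε) * w))) :
    4 * T * √(8 * (X1 + (X2 + X3)) + X4) ≤ 2 ^ (-(1 + lam)) := by
  set Z : ℝ := 11 + 2 * lam + (1 - 2 * ε) * w with hZ
  have hZp := e2_pos (-Z)
  have h5 : 8 * (X1 + (X2 + X3)) + X4 ≤ (2 : ℝ) ^ (5 - Z) := by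
    have h6 : (2 : ℝ) ^ (5 - Z) = 32 * (2 : ℝ) ^ (-Z) := by
      rw [sub_eq_add_neg, ← e2_add]
      congr 1
      rw [show (5 : ℝ) = ((5 : ℕ) : ℝ) by norm_num, Real.rpow_natCast]; norm_num
    rw [h6]
    linarith
  have h7 : √(8 * (X1 + (X2 + X3)) + X4) ≤ (2 : ℝ) ^ ((5 - Z) / 2) := by
    apply Real.sqrt_le_iff.2
    refine ⟨(e2_pos _).le, ?_⟩
    rw [← Real.rpow_natCast, ← Real.rpow_mul (by norm_num)]
    push_cast
    rw [div_mul_cancel₀ _ (two_ne_zero)]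
    exact h5
  have h8 : (4 : ℝ) = (2 : ℝ) ^ (2 : ℝ) := by
    rw [show (2 : ℝ) ^ (2 : ℝ) = (2 : ℝ) ^ ((2 : ℕ) : ℝ) by norm_num, Real.rpow_natCast]; norm_num
  calc 4 * T * √(8 * (X1 + (X2 + X3)) + X4)
      ≤ (2 : ℝ) ^ (2 : ℝ) * (2 : ℝ) ^ ((1 / 2 - ε) * w) * (2 : ℝ) ^ ((5 - Z) / 2) := by
        rw [← h8]
        gcongr
    _ = (2 : ℝ) ^ (2 + (1 / 2 - ε) * w + (5 - Z) / 2) := by rw [e2_add, e2_add]
    _ ≤ 2 ^ (-(1 + lam)) := e2_mono (by rw [hZ]; linarith)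

/-! ### The exponents -/

theorem ex1 {ε n k l D h bk C δ0 : ℝ} (hε : 0 < ε) (hε1 : ε ≤ 1) (hk : 0 ≤ k) (hl : 0 ≤ l)
    (hC : 0 ≤ C) (hdh : D * h ≤ δ0 * k) (hδ : 16 * (C + 2) * δ0 ≤ ε)
    (hbk : (1 - ε / 4) * k ≤ bk + 1) (hkl : n - l ≤ k * l) (hk16 : 16 * k ≤ ε * n)
    (hl16 : 16 * l ≤ ε * n) :
    k + (1 - ε) * n + 2 * l * (C + 2) * D * h - l * (bk + 1) ≤ -(ε / 2 * n) := by
  have h1 : 2 * l * (C + 2) * D * h ≤ ε / 8 * (k * l) := by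
    have e1 : 2 * l * (C + 2) * D * h = 2 * l * (C + 2) * (D * h) := by ring
    have e2 : 2 * l * (C + 2) * (D * h) ≤ 2 * l * (C + 2) * (δ0 * k) :=
      mul_le_mul_of_nonneg_left hdh (by positivity)
    have e3 : 2 * l * (C + 2) * (δ0 * k) = (16 * (C + 2) * δ0) * (k * l) / 8 := by ring
    have e4 : (16 * (C + 2) * δ0) * (k * l) ≤ ε * (k * l) :=
      mul_le_mul_of_nonneg_right hδ (by positivity)
    linarith
  have h2 : l * ((1 - ε / 4) * k) ≤ l * (bk + 1) := mul_le_mul_of_nonneg_left hbk hl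
  have h3 : 0 ≤ (1 - 3 * ε / 8) * (k * l - (n - l)) :=
    mul_nonneg (by linarith) (by linarith)
  have h4 : 0 ≤ ε * l := by positivity
  linarith

theorem ex3 {c₁ n k l D h C δ0 γh : ℝ} (hc : 0 < c₁) (hk : 0 ≤ k) (hl : 0 ≤ l)
    (hC : 0 ≤ C) (hdh : D * h ≤ δ0 * k) (hδ : 16 * (C + 2) * δ0 ≤ c₁)
    (hγ : c₁ * k / 2 ≤ γh) (hkl : n - l ≤ k * l) (hl2 : 2 * l ≤ n)
    (hcl : 16 ≤ c₁ * l) :
    k + l * (C + 2) * D * h - l * γh ≤ -(c₁ / 16 * n) := by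
  have h1 : l * (C + 2) * D * h ≤ c₁ / 16 * (k * l) := by
    have e1 : l * (C + 2) * D * h = l * (C + 2) * (D * h) := by ring
    have e2 : l * (C + 2) * (D * h) ≤ l * (C + 2) * (δ0 * k) :=
      mul_le_mul_of_nonneg_left hdh (by positivity)
    have e3 : l * (C + 2) * (δ0 * k) = (16 * (C + 2) * δ0) * (k * l) / 16 := by ring
    have e4 : (16 * (C + 2) * δ0) * (k * l) ≤ c₁ * (k * l) :=
      mul_le_mul_of_nonneg_right hδ (by positivity)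
    linarith
  have h2 : l * (c₁ * k / 2) ≤ l * γh := mul_le_mul_of_nonneg_left hγ hl
  have h3 : 0 ≤ k * (c₁ * l - 16) := mul_nonneg hk (by linarith)
  have h4 : 0 ≤ c₁ * (k * l - n / 2) := mul_nonneg hc.le (by linarith)
  have h5 : 0 ≤ c₁ * (k * l) := by positivity
  have h6 : 0 ≤ c₁ * n := mul_nonneg hc.le (by linarith)
  linarith

theorem ex2 {ε w l D C L R γ lam Lg b c : ℝ} (hε : 0 < ε) (hε1 : ε ≤ 1) (hD : 1 ≤ D) (hl : 0 ≤ l)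
    (hL : 16 ≤ ε * L) (hR : C + 4 ≤ R) (hC : 0 ≤ C) (hγ : 1 + γ = L * R * D)
    (hσ1 : ((L + 1) * R * D + 1) * l ≤ w) (hσ2 : w ≤ ((L + 1) * R * D + 1) * (l + 1))
    (hbl : b ≤ l) (hb : 16 ≤ ε * b) (hlam : c * lam ≤ w) (hLg : c * Lg ≤ w) (hcw : c ≤ w)
    (hc : 64 ≤ ε * c) :
    1 + (Lg + 1) + l * (C + 2) * D - l * γ ≤ -(11 + 2 * lam + (1 - ε) * w) := by
  set σ : ℝ := (L + 1) * R * D + 1 with hσ
  have hb0 : 16 ≤ b := by nlinarith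
  have hL0 : 16 ≤ L := by nlinarith
  have hc0 : 0 < c := by nlinarith
  have hw0 : 0 < w := by linarith
  have hσ0 : 1 ≤ σ := by
    have : 0 ≤ (L + 1) * R * D := by
      have : 0 ≤ R := by linarith
      positivity
    linarith
  -- gamma - (C+2) D ≥ (1 - ε/8) σ
  have h1 : (1 - ε / 8) * σ ≤ γ - (C + 2) * D := by
    have e1 : σ - (γ - (C + 2) * D) = R * D + 2 + (C + 2) * D := by
      rw [hσ]; linarith
    have e2 : R * D + 2 + (C + 2) * D ≤ 2 * (R * D) := by nlinarith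
    have e3 : 2 * (R * D) ≤ ε / 8 * σ := by
      have : 16 * (R * D) ≤ ε * L * (R * D) := mul_le_mul_of_nonneg_right hL (by nlinarith)
      have h0 : 0 ≤ ε * (R * D) := by
        have : 0 ≤ R * D := by nlinarith
        positivity
      rw [hσ]
      nlinarith
    linarith
  have h2 : σ ≤ ε / 8 * w := by
    have e1 : σ * b ≤ w := by
      have : σ * b ≤ σ * l := mul_le_mul_of_nonneg_left hbl (by linarith)
      linarith
    have e2 : 16 * σ ≤ ε * b * σ := mul_le_mul_of_nonneg_right hb (by linarith)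
    nlinarith
  have h3 : (1 - ε / 8) * w ≤ σ * l := by nlinarith
  have h4 : (1 - ε / 4) * w ≤ l * (γ - (C + 2) * D) := by
    have e1 : l * ((1 - ε / 8) * σ) ≤ l * (γ - (C + 2) * D) := mul_le_mul_of_nonneg_left h1 hl
    have e2 : (1 - ε / 8) * ((1 - ε / 8) * w) ≤ (1 - ε / 8) * (σ * l) :=
      mul_le_mul_of_nonneg_left h3 (by linarith)
    have e3 : 0 ≤ ε ^ 2 * w := by positivity
    nlinarith
  have h5 : 16 * w ≤ c * (3 / 4 * ε * w) := by nlinarith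
  have h6 : c * (13 + Lg + 2 * lam) ≤ c * (3 / 4 * ε * w) := by nlinarith
  have h7 : 13 + Lg + 2 * lam ≤ 3 / 4 * ε * w := le_of_mul_le_mul_left h6 hc0
  nlinarith

theorem exZ {c w n lam ε κ : ℝ} (hc : 0 < c) (hlam : c * lam ≤ w) (hc1 : 1 ≤ c) (hcw : c * w ≤ n)
    (hw : 1 ≤ w) (hε : 0 < ε) (hκ : 14 ≤ c * κ) : 11 + 2 * lam + (1 - 2 * ε) * w ≤ κ * n := by
  have h1 : lam ≤ w := by nlinarith
  have h2 : 11 + 2 * lam + (1 - 2 * ε) * w ≤ 14 * w := by nlinarith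
  have hκ0 : 0 < κ := by
    by_contra hcon
    push Not at hcon
    nlinarith
  have h3 : κ * (c * w) ≤ κ * n := mul_le_mul_of_nonneg_left hcw hκ0.le
  nlinarith

theorem nat_facts {A b c d w n Lg σ : ℕ} (hσ1 : 1 ≤ σ) (hσA : σ ≤ A * d) (hAb : A * b ≤ c)
    (hLg : 1 ≤ Lg) (hb : 1 ≤ b) (hcd : c * d * Lg ≤ w) (hn : 1 ≤ n) :
    σ * (w / σ) ≤ w ∧ w < σ * (w / σ + 1) ∧ b * Lg ≤ w / σ ∧
      (n - 1) / (w / σ) * (w / σ) + 1 ≤ n ∧ n ≤ ((n - 1) / (w / σ) + 1) * (w / σ) := by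
  have h3 : b * Lg ≤ w / σ := by
    rw [Nat.le_div_iff_mul_le hσ1]
    calc b * Lg * σ ≤ b * Lg * (A * d) := Nat.mul_le_mul_left _ hσA
      _ = (A * b) * d * Lg := by ring
      _ ≤ c * d * Lg := by gcongr
      _ ≤ w := hcd
  have h4 : 1 ≤ w / σ := le_trans (Nat.mul_pos hb hLg) h3
  have h5 := Nat.div_mul_le_self (n - 1) (w / σ)
  have h6 := Nat.lt_mul_div_succ (n - 1) (show 0 < w / σ by omega)
  have h7 : w / σ * ((n - 1) / (w / σ) + 1) = ((n - 1) / (w / σ) + 1) * (w / σ) := mul_comm _ _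
  exact ⟨Nat.mul_div_le w σ, Nat.lt_mul_div_succ w hσ1, h3, by omega, by omega⟩

theorem parf : T_PARF := by
  intro ε hε hε1
  obtain ⟨L, hL⟩ := exists_nat_ge (16 / ε)
  rw [div_le_iff₀ hε, mul_comm] at hL
  refine ⟨1 - ε / 4, L, by linarith, by linarith, ?_⟩
  intro c₀ c₁ hc₀ hc₁
  obtain ⟨c₁', hc1'0, hc1'1, hc1'c⟩ : ∃ c₁' : ℝ, 0 < c₁' ∧ c₁' ≤ 1 ∧ c₁' ≤ c₁ :=
    ⟨min c₁ 1, by positivity, min_le_right _ _, min_le_left _ _⟩
  obtain ⟨C1, hC1⟩ := exists_nat_ge (16 / ε)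
  rw [div_le_iff₀ hε, mul_comm] at hC1
  obtain ⟨δ0, hδ0, hδ1, hδ2⟩ : ∃ δ0 : ℝ, 0 < δ0 ∧ 16 * ((C1 : ℝ) + 2) * δ0 ≤ ε ∧
      16 * ((C1 : ℝ) + 2) * δ0 ≤ c₁' := by
    have h16 : (0 : ℝ) < 16 * ((C1 : ℝ) + 2) := by positivity
    refine ⟨min ε c₁' / (16 * ((C1 : ℝ) + 2)), by positivity, ?_, ?_⟩
    · rw [mul_div_cancel₀ _ h16.ne']; exact min_le_left _ _
    · rw [mul_div_cancel₀ _ h16.ne']; exact min_le_right _ _
  obtain ⟨R0, hR0⟩ := exists_nat_ge (c₀ / δ0)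
  rw [div_le_iff₀ hδ0] at hR0
  obtain ⟨R, hR1, hR2⟩ : ∃ R : ℕ, C1 + 4 ≤ R ∧ R0 ≤ R := ⟨C1 + 4 + R0, by omega, by omega⟩
  obtain ⟨A, hA⟩ : ∃ A : ℕ, A = (L + 1) * R + 1 := ⟨_, rfl⟩
  obtain ⟨b1, hb1⟩ := exists_nat_ge (64 / ε)
  rw [div_le_iff₀ hε] at hb1
  obtain ⟨b2, hb2⟩ := exists_nat_ge (16 / c₁')
  rw [div_le_iff₀ hc1'0] at hb2
  obtain ⟨b, hb44, hbb1, hbb2⟩ : ∃ b : ℕ, 44 ≤ b ∧ b1 ≤ b ∧ b2 ≤ b :=
    ⟨44 + b1 + b2, by omega, by omega, by omega⟩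
  obtain ⟨n1, hn1⟩ := exists_nat_ge (4 / δ0)
  rw [div_le_iff₀ hδ0] at hn1
  obtain ⟨n2, hn2⟩ := exists_nat_ge (224 / c₁')
  rw [div_le_iff₀ hc1'0] at hn2
  obtain ⟨c, hcAb, hcA, hcn1, hcn2, hcb1, hc28⟩ : ∃ c : ℕ, A * b ≤ c ∧ 16 * A ≤ c ∧ n1 ≤ c ∧ n2 ≤ c ∧
      b1 ≤ c ∧ 28 ≤ c :=
    ⟨A * b + 16 * A + n1 + n2 + b1 + 28, by omega, by omega, by omega, by omega, by omega, by omega⟩
  refine ⟨c, by omega, ?_⟩
  filter_upwards [eventually_ge_atTop 2] with n hn d w hd hcd hcw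
  set Lg := Nat.log 2 n with hLgdef
  have hLg1 : 1 ≤ Lg := Nat.log_pos (by norm_num) hn
  have hnν : n < 2 ^ (Lg + 1) := Nat.lt_pow_succ_log_self (by norm_num) n
  -- positivity of parameters
  have hL16 : 16 ≤ L := by
    have h : (16 : ℝ) ≤ L := by
      have : ε * L ≤ 1 * L := mul_le_mul_of_nonneg_right hε1 (Nat.cast_nonneg L)
      linarith
    exact_mod_cast h
  have hR4 : 4 ≤ R := by omega
  have hRd : 4 ≤ R * d := le_trans hR4 (Nat.le_mul_of_pos_right R hd)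
  have hLRd : 64 ≤ L * R * d := by
    rw [mul_assoc]
    calc 64 = 16 * 4 := by norm_num
      _ ≤ L * (R * d) := Nat.mul_le_mul hL16 hRd
  obtain ⟨r, hr⟩ : ∃ r : ℕ, r = R * d := ⟨_, rfl⟩
  obtain ⟨γ, hγ⟩ : ∃ γ : ℕ, 1 + γ = L * R * d := ⟨L * R * d - 1, by omega⟩
  obtain ⟨σ, hσ⟩ : ∃ σ : ℕ, σ = (L + 1) * R * d + 1 := ⟨_, rfl⟩
  have hσ' : σ = r + 1 + γ + 1 := by
    have : (L + 1) * R * d = L * R * d + R * d := by ring
    omega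
  have hσA : σ ≤ A * d := by
    have e1 : A * d = (L + 1) * R * d + d := by rw [hA]; ring
    rw [hσ, e1]
    omega
  have hσd : d ≤ σ := by
    have : d ≤ R * d := Nat.le_mul_of_pos_left d (by omega)
    omega
  obtain ⟨h1, h2, h3, h4, h5⟩ := nat_facts (A := A) (b := b) (c := c) (d := d) (w := w) (n := n)
    (Lg := Lg) (σ := σ) (by omega) hσA hcAb hLg1 (by omega) hcd (by omega)
  set l : ℕ := w / σ with hl
  set k : ℕ := (n - 1) / l with hk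
  have hbLg : b ≤ b * Lg := Nat.le_mul_of_pos_right b hLg1
  have hbl : b ≤ l := hbLg.trans h3
  -- real versions
  have hσR : (σ : ℝ) = ((L : ℝ) + 1) * R * d + 1 := by rw [hσ]; push_cast; rfl
  have hγR : 1 + (γ : ℝ) = L * R * d := by exact_mod_cast hγ
  have hdR : (1 : ℝ) ≤ d := by exact_mod_cast hd
  have hr1 : (σ : ℝ) * l ≤ w := by exact_mod_cast h1
  have hr2 : (w : ℝ) ≤ σ * (l + 1) := by exact_mod_cast h2.le
  have hr3 : (b : ℝ) * Lg ≤ l := by exact_mod_cast h3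
  have hr4 : (k : ℝ) * l + 1 ≤ n := by exact_mod_cast h4
  have hr5 : (n : ℝ) ≤ (k + 1) * l := by exact_mod_cast h5
  have hrbl : (b : ℝ) ≤ l := by exact_mod_cast hbl
  have hb44R : (44 : ℝ) ≤ b := by exact_mod_cast hb44
  have hLgR : (1 : ℝ) ≤ Lg := by exact_mod_cast hLg1
  have hcR : (28 : ℝ) ≤ c := by exact_mod_cast hc28
  have hcwR : (c : ℝ) * w ≤ n := by exact_mod_cast hcw
  have hcdR : (c : ℝ) * d * Lg ≤ w := by exact_mod_cast hcd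
  have hσ1R : (1 : ℝ) ≤ σ := by exact_mod_cast (by omega : 1 ≤ σ)
  have hσdR : (d : ℝ) ≤ σ := by exact_mod_cast hσd
  have hσAR : (σ : ℝ) ≤ A * d := by exact_mod_cast hσA
  have hcAR : 16 * (A : ℝ) ≤ c := by exact_mod_cast hcA
  have hk0R : (0 : ℝ) ≤ k := Nat.cast_nonneg k
  have hεb : 64 ≤ ε * b := by
    have : (b1 : ℝ) ≤ b := by exact_mod_cast hbb1
    have := mul_le_mul_of_nonneg_left this hε.le
    linarith
  have hεc : 64 ≤ ε * c := by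
    have : (b1 : ℝ) ≤ c := by exact_mod_cast hcb1
    have := mul_le_mul_of_nonneg_left this hε.le
    linarith
  have hc1b : 16 ≤ c₁' * b := by
    have : (b2 : ℝ) ≤ b := by exact_mod_cast hbb2
    have := mul_le_mul_of_nonneg_left this hc1'0.le
    linarith
  have hc1c : 224 ≤ c₁' * c := by
    have : (n2 : ℝ) ≤ c := by exact_mod_cast hcn2
    have := mul_le_mul_of_nonneg_left this hc1'0.le
    linarith
  have hδc : 4 ≤ δ0 * c := by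
    have : (n1 : ℝ) ≤ c := by exact_mod_cast hcn1
    have := mul_le_mul_of_nonneg_left this hδ0.le
    linarith
  have hRR : (C1 : ℝ) + 4 ≤ R := by exact_mod_cast hR1
  have hR0R : c₀ ≤ R * δ0 := by
    have : (R0 : ℝ) ≤ R := by exact_mod_cast hR2
    have := mul_le_mul_of_nonneg_right this hδ0.le
    linarith
  have hl0 : (0 : ℝ) < l := by linarith
  have hcw' : (c : ℝ) ≤ w := by
    have : (c : ℝ) * (1 * 1) ≤ c * (d * Lg) := by gcongr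
    linarith
  have hw1 : (1 : ℝ) ≤ w := by linarith
  have hcσ28 : 28 ≤ (c : ℝ) * σ := by
    have := mul_le_mul hcR hσ1R (by norm_num) (by linarith)
    linarith
  -- k is large
  have hk1 : c * σ ≤ 2 * (k : ℝ) := by
    have e1 : (c * σ : ℝ) * l ≤ (k + 1) * l := by
      have : (c : ℝ) * (σ * l) ≤ c * w := mul_le_mul_of_nonneg_left hr1 (by linarith)
      linarith
    have e2 : (c * σ : ℝ) ≤ k + 1 := le_of_mul_le_mul_right e1 hl0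
    linarith
  have hk14 : 14 ≤ (k : ℝ) := by linarith
  have hbk : (b : ℝ) * k ≤ n := by
    have : (k : ℝ) * b ≤ k * l := mul_le_mul_of_nonneg_left hrbl hk0R
    linarith
  have hlw : (l : ℝ) ≤ w := by
    have := mul_le_mul_of_nonneg_right hσ1R hl0.le
    linarith
  have hcl : (c : ℝ) * l ≤ n := by
    have : (c : ℝ) * l ≤ c * w := mul_le_mul_of_nonneg_left hlw (by linarith)
    linarith
  have hkl : (n : ℝ) - l ≤ k * l := by linarith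
  have hn0 : (0 : ℝ) < n := by
    have := mul_le_mul hcR hw1 (by norm_num) (by linarith)
    linarith
  have hk16 : 16 * (k : ℝ) ≤ ε * n := by
    have e1 : ε * (b * k) ≤ ε * n := mul_le_mul_of_nonneg_left hbk hε.le
    have e2 : 64 * (k : ℝ) ≤ ε * b * k := mul_le_mul_of_nonneg_right hεb hk0R
    linarith
  have hl16 : 16 * (l : ℝ) ≤ ε * n := by
    have e1 : ε * (c * l) ≤ ε * n := mul_le_mul_of_nonneg_left hcl hε.le
    have e2 : 64 * (l : ℝ) ≤ ε * c * l := mul_le_mul_of_nonneg_right hεc hl0.le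
    linarith
  have hl2 : 2 * (l : ℝ) ≤ n := by
    have : (2 : ℝ) * l ≤ c * l := by gcongr; linarith
    linarith
  have hγ63 : (63 : ℝ) ≤ γ := by exact_mod_cast (by omega : 63 ≤ γ)
  have hγσ : (γ : ℝ) ≤ σ := by exact_mod_cast (by omega : γ ≤ σ)
  have hγk : (γ : ℝ) ≤ c₁' * k / 2 := by
    have e1 : c₁' * (c * σ) ≤ c₁' * (2 * k) := mul_le_mul_of_nonneg_left hk1 hc1'0.le
    have e2 : 224 * (σ : ℝ) ≤ c₁' * c * σ := mul_le_mul_of_nonneg_right hc1c (by linarith)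
    linarith
  -- h and h₁
  obtain ⟨δ, hδ⟩ : ∃ δ : ℝ, δ = δ0 / d := ⟨_, rfl⟩
  have hδpos : 0 < δ := by rw [hδ]; positivity
  have hdδ : d * δ = δ0 := by rw [hδ, mul_div_cancel₀ _ (by positivity)]
  obtain ⟨h₁, hh₁⟩ : ∃ h₁ : ℕ, h₁ = ⌊c₁' * k / γ⌋₊ := ⟨_, rfl⟩
  have hγ0 : (0 : ℝ) < γ := by linarith
  have hh1a : (γ : ℝ) * h₁ ≤ c₁' * k := by
    have : (h₁ : ℝ) ≤ c₁' * k / γ := by rw [hh₁]; exact Nat.floor_le (by positivity)
    rw [le_div_iff₀ hγ0] at this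
    linarith
  have hh1b : c₁' * k / 2 ≤ (γ : ℝ) * h₁ := by
    have : c₁' * k / γ < (h₁ : ℝ) + 1 := by rw [hh₁]; exact Nat.lt_floor_add_one _
    rw [div_lt_iff₀ hγ0] at this
    linarith
  have hδk : 1 ≤ δ * k := by
    have e1 : δ * (c * σ) ≤ δ * (2 * k) := mul_le_mul_of_nonneg_left hk1 hδpos.le
    have e2 : δ * (c * d) ≤ δ * (c * σ) := by gcongr
    have e3 : δ * (c * d) = δ0 * c := by rw [← hdδ]; ring
    linarith
  have hdh : (d : ℝ) * ⌊δ * k⌋₊ ≤ δ0 * k := by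
    have : (⌊δ * k⌋₊ : ℝ) ≤ δ * k := Nat.floor_le (by positivity)
    calc (d : ℝ) * ⌊δ * k⌋₊ ≤ d * (δ * k) := by gcongr
      _ = δ0 * k := by rw [← hdδ]; ring
  obtain ⟨p, hp⟩ : ∃ p : ℝ, p = 1 / ((2 : ℝ) ^ l) ^ C1 := ⟨_, rfl⟩
  have hp0 : 0 < p := by rw [hp]; positivity
  have hC1pos : 1 ≤ C1 := by
    rcases Nat.eq_zero_or_pos C1 with h0 | h0
    · rw [h0] at hC1; push_cast at hC1; linarith
    · exact h0
  have hp2 : p ≤ 1 / 2 := by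
    rw [hp]
    apply one_div_le_one_div_of_le (by norm_num)
    calc (2 : ℝ) = (2 ^ 1) ^ 1 := by norm_num
      _ ≤ (2 ^ l) ^ 1 := by
        apply pow_le_pow_left₀ (by norm_num)
        exact pow_le_pow_right₀ (by norm_num) (by omega)
      _ ≤ (2 ^ l) ^ C1 := pow_le_pow_right₀ (one_le_pow₀ (by norm_num)) hC1pos
  refine ⟨k, l, r, γ, h₁, δ, p, ?_, by omega, h4, by rw [← hσ']; exact h1, by exact_mod_cast hw1, ?_,
    ?_, hδpos, ?_, ?_, ?_, ?_, ?_, hp0, hp2, ?_⟩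
  · exact_mod_cast (by linarith : (1 : ℝ) ≤ k)
  · have : (w : ℝ) < n := by
      have := mul_le_mul_of_nonneg_right hcR (show (0 : ℝ) ≤ w by linarith)
      linarith
    exact_mod_cast this
  · linarith
  · have e1 : c₀ ≤ δ * r := by
      have : (r : ℝ) = R * d := by exact_mod_cast hr
      rw [this]
      calc c₀ ≤ R * δ0 := hR0R
        _ = δ * (R * d) := by rw [← hdδ]; ring
    have e2 : δ * (r : ℝ) ≤ δ * (r + 1 + γ) := by
      apply mul_le_mul_of_nonneg_left _ hδpos.le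
      linarith
    linarith
  · omega
  · rw [hγ, hr, mul_assoc]
  · exact hh1a.trans (mul_le_mul_of_nonneg_right hc1'c hk0R)
  · exact Nat.le_floor (by push_cast; exact hδk)
  intro t ht htw
  obtain ⟨lam, hlamdef⟩ : ∃ lam : ℝ, lam = Real.logb 2 t := ⟨_, rfl⟩
  have ht1R : (1 : ℝ) ≤ t := by exact_mod_cast ht
  have hlam : (2 : ℝ) ^ lam = t := by
    rw [hlamdef]
    exact Real.rpow_logb (by norm_num) (by norm_num) (by linarith)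
  have hlam0 : 0 ≤ lam := by rw [hlamdef]; exact Real.logb_nonneg (by norm_num) ht1R
  have hlamw : (c : ℝ) * d * lam ≤ w := by
    have e1 : (t : ℝ) ^ (c * d) ≤ 2 ^ w := by exact_mod_cast htw
    rw [← hlam, ← Real.rpow_natCast, ← Real.rpow_mul (by norm_num), ← Real.rpow_natCast 2 w,
      Real.rpow_le_rpow_left_iff (by norm_num)] at e1
    push_cast at e1
    linarith
  have hclam : (c : ℝ) * lam ≤ w := by
    have : (c : ℝ) * 1 * lam ≤ c * d * lam := by gcongr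
    linarith
  have hlaml : 8 * lam ≤ l := by
    have e1 : (c : ℝ) * d * lam ≤ A * d * (l + 1) := by
      have : (σ : ℝ) * (l + 1) ≤ A * d * (l + 1) := by gcongr
      linarith
    have e2 : (16 * A : ℝ) * d * lam ≤ c * d * lam := by gcongr
    have hA1 : (1 : ℝ) ≤ A := by exact_mod_cast (by rw [hA]; omega : 1 ≤ A)
    have hAd : (0 : ℝ) < A * d := by positivity
    have e3 : (A * d : ℝ) * (16 * lam) ≤ (A * d) * (l + 1) := by linarith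
    have e4 := le_of_mul_le_mul_left e3 hAd
    linarith
  obtain ⟨D, hD⟩ : ∃ D : ℕ, D = t + 8 * n := ⟨_, rfl⟩
  have hDR : (D : ℝ) = t + 8 * n := by rw [hD]; push_cast; rfl
  have hD1 : 1 ≤ D := by omega
  have hD0 : (0 : ℝ) < D := by exact_mod_cast hD1
  obtain ⟨q, hq⟩ : ∃ q : ℝ, q = p / (64 * ((t : ℝ) + 1) * D) := ⟨_, rfl⟩
  have hG0 : (0 : ℝ) < 64 * ((t : ℝ) + 1) * D := by positivity
  have hq0 : 0 < q := by rw [hq]; positivity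
  have hGq : 64 * ((t : ℝ) + 1) * D * q = p := by
    rw [hq, mul_div_cancel₀ _ hG0.ne']
  have hD1R : (1 : ℝ) ≤ D := by exact_mod_cast hD1
  have hq2 : q ≤ 1 / 2 := by
    have e1 : 1 ≤ 64 * ((t : ℝ) + 1) * D := by
      have := mul_le_mul (show (1 : ℝ) ≤ t + 1 by linarith) hD1R (by norm_num) (by linarith)
      linarith
    have e2 : 1 * q ≤ 64 * ((t : ℝ) + 1) * D * q := mul_le_mul_of_nonneg_right e1 hq0.le
    linarith
  refine ⟨D, q, hD1, hq0, hq2, hGq.le, ?_⟩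
  intro s T hs hT0 hT
  have hnν' : (n : ℝ) ≤ 2 ^ ((Lg : ℝ) + 1) := by
    have e1 : (n : ℝ) ≤ 2 ^ (Lg + 1) := by exact_mod_cast hnν.le
    rw [two_pow_eq] at e1
    push_cast at e1
    exact e1
  have hg : 64 * ((t : ℝ) + 1) * D ≤ 2 ^ l := by
    have hn2R : (2 : ℝ) ≤ n := by exact_mod_cast hn
    have e0 : 64 * ((t : ℝ) + 1) * D ≤ 1152 * (t * t * n) := by
      rw [hDR]
      have a1 : (t : ℝ) + 1 ≤ 2 * t := by linarith
      have a2 : (t : ℝ) + 8 * n ≤ 9 * (t * n) := by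
        have b1 : (t : ℝ) * 1 ≤ t * n := by gcongr; linarith
        have b2 : 1 * (n : ℝ) ≤ t * n := by gcongr
        linarith
      calc 64 * ((t : ℝ) + 1) * (t + 8 * n) ≤ 64 * (2 * t) * (9 * (t * n)) := by gcongr
        _ = 1152 * (t * t * n) := by ring
    have e1 : (1152 : ℝ) ≤ 2 ^ (11 : ℝ) := by
      rw [show (11 : ℝ) = ((11 : ℕ) : ℝ) by norm_num, Real.rpow_natCast]; norm_num
    calc 64 * ((t : ℝ) + 1) * D ≤ 1152 * (t * t * n) := e0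
      _ ≤ 2 ^ (11 : ℝ) * (2 ^ lam * 2 ^ lam * 2 ^ ((Lg : ℝ) + 1)) := by
        rw [hlam]
        gcongr
      _ = 2 ^ (11 + (lam + lam + ((Lg : ℝ) + 1))) := by rw [e2_add, e2_add, e2_add]
      _ ≤ 2 ^ (l : ℝ) := by
        apply e2_mono
        have : 44 * (Lg : ℝ) ≤ b * Lg := by gcongr
        linarith
      _ = 2 ^ l := (two_pow_eq l).symm
  obtain ⟨hB0, hB1⟩ := B_le (d := d) hp hq hD1 hd hg
  have hfb : (1 - ε / 4) * k ≤ (⌊(1 - ε / 4) * k⌋₊ : ℝ) + 1 := (Nat.lt_floor_add_one _).le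
  have hfθ : ε / 2 * k ≤ (⌊ε / 2 * k⌋₊ : ℝ) + 1 := (Nat.lt_floor_add_one _).le
  have hC10 : (0 : ℝ) ≤ C1 := Nat.cast_nonneg C1
  have hx1 := X1_le (l := l) (d := d) (C1 := C1) (h := ⌊δ * k⌋₊) (k := k)
    (bk := ⌊(1 - ε / 4) * k⌋₊) (n := n) (ε := ε) (s := s) (Z := 11 + 2 * lam + (1 - 2 * ε) * w)
    hB0 hB1 hs (by
      have e1 := ex1 hε hε1 hk0R hl0.le hC10 hdh hδ1 hfb hkl hk16 hl16
      have e2 := exZ (ε := ε) (κ := ε / 2) (by linarith) hclam (by linarith) hcwR hw1 hε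
        (by linarith)
      linarith)
  have hx3 := X3_le (l := l) (d := d) (C1 := C1) (h := ⌊δ * k⌋₊) (k := k) (γ := γ) (h₁ := h₁)
    (Z := 11 + 2 * lam + (1 - 2 * ε) * w)
    hB0 hB1 (by
      have e1 := ex3 (n := n) hc1'0 hk0R hl0.le hC10 hdh hδ2 hh1b hkl hl2 (by
        have := mul_le_mul_of_nonneg_left hrbl hc1'0.le
        linarith)
      have e2 := exZ (ε := ε) (κ := c₁' / 16) (by linarith) hclam (by linarith) hcwR hw1 hε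
        (by linarith)
      linarith)
  have hx2' := X2_le (l := l) (d := d) (C1 := C1) (k := k) (γ := γ) (D := D) (q := q)
    (ν := Lg + 1) (Z := 11 + 2 * lam + (1 - ε) * w) hB0 hB1
    (by
      have : 0 ≤ (1 - ε) * w := mul_nonneg (by linarith) (by linarith)
      linarith)
    (by
      have : 1 * (k : ℝ) ≤ b * k := by
        apply mul_le_mul_of_nonneg_right _ hk0R
        linarith
      linarith)
    (ex2 (R := R) (b := b) (c := c) (L := L) hε hε1 hdR hl0.le hL hRR hC10 hγR (by rw [← hσR]; exact hr1)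
      (by rw [← hσR]; exact hr2) hrbl (by linarith) hclam (by
        have : (c : ℝ) * 1 * Lg ≤ c * d * Lg := by gcongr
        linarith) hcw' hεc)
  have hx2 := hx2'.trans (e2_mono (x := -(11 + 2 * lam + (1 - ε) * w))
    (y := -(11 + 2 * lam + (1 - 2 * ε) * w)) (by
      have : 0 ≤ ε * (w : ℝ) := by positivity
      linarith))
  have hx4 := deep_le (k := k) (D := D) (t := t) (n := n) (ε := ε) (s := s)
    (Z := 11 + 2 * lam + (1 - 2 * ε) * w) ht hlam hs (by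
      have e2 := exZ (ε := ε) (κ := 1) (by linarith) hclam (by linarith) hcwR hw1 hε
        (by linarith)
      have e3 : (k : ℝ) * (8 * lam) ≤ k * l := mul_le_mul_of_nonneg_left hlaml hk0R
      have e4 : 0 ≤ ε * n := by positivity
      have e5 : 44 * (k : ℝ) ≤ b * k := mul_le_mul_of_nonneg_right hb44R hk0R
      rw [hDR]
      linarith)
  have hx5 := null_le (l := l) (C1 := C1) (k := k) (th := ⌊ε / 2 * k⌋₊) (p := p) (Z := 1 + lam) hp (by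
      have e1 : (C1 : ℝ) * l * (ε / 2 * k) ≤ C1 * l * (⌊ε / 2 * k⌋₊ + 1) := by gcongr
      have e2 : 16 * (l * k : ℝ) ≤ ε * C1 * (l * k) := mul_le_mul_of_nonneg_right hC1 (by positivity)
      have e3 : (1 : ℝ) * k ≤ l * k := by
        apply mul_le_mul_of_nonneg_right _ hk0R
        linarith
      have e4 : (l : ℝ) * 1 ≤ l * k := by
        apply mul_le_mul_of_nonneg_left _ hl0.le
        linarith
      linarith)
  have hN : ((2 ^ l : ℕ) : ℝ) = (2 : ℝ) ^ l := by push_cast; rfl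
  have hfin := final_le hT hx1 hx2 hx3 hx4
  have hfin2 : 4 * T * √(etaF k (2 ^ l) s D ⌊(1 - ε / 4) * k⌋₊ ⌊δ * k⌋₊ d γ h₁ q +
      2 ^ t * deepG k s D t) ≤ 2 ^ (-(1 + lam)) := by
    unfold etaF deepG
    rw [hN]
    exact hfin
  have h1t : (1 : ℝ) / t = 2 * 2 ^ (-(1 + lam)) := by
    rw [← hlam, one_div, ← Real.rpow_neg (by norm_num)]
    have : (2 : ℝ) * 2 ^ (-(1 + lam)) = 2 ^ (1 : ℝ) * 2 ^ (-(1 + lam)) := by rw [Real.rpow_one]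
    rw [this, e2_add]
    congr 1
    ring
  rw [h1t]
  linarith

end Pool.Agent.H33.QF
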