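import Pool.Agent.H75.QF.Targets

/-!
# Final form: changing the signs of the inputs of a circuit (`T_RLB`)
-/

set_option autoImplicit false

namespace Pool.Agent.H33.QF

open Finset Pool.Agent.H68.AC Pool.Agent.H75.QG Pool.Agent.H75.QF

/-- the involution of the literals -/
def flp {I : Type} (σ : I → Bool) (c : I × Bool) : I × Bool := (c.1, xor (σ c.1) c.2)

theorem flp_flp {I : Type} (σ : I → Bool) (c : I × Bool) : flp σ (flp σ c) = c := by
  unfold flp
  refine Prod.ext rfl ?_
  show xor (σ c.1) (xor (σ c.1) c.2) = c.2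
  cases σ c.1 <;> cases c.2 <;> rfl

theorem flp_inj {I : Type} (σ : I → Bool) : Function.Injective (flp σ) :=
  Function.LeftInverse.injective (flp_flp σ)

/-- the circuit with changed signs -/
def sgnC {I : Type} {s M : ℕ} (σ : I → Bool) (C : GCircuit I s M) : GCircuit I s M where
  lits := fun g => {c | flp σ c ∈ C.lits g}
  wires := C.wires
  topo := C.topo
  op := fun g A B => C.op g (flp σ '' A) B
  dflt := C.dflt
  op_eq := by
    intro g A hA B hB hlt
    apply C.op_eq g _ _ B hB
    · rw [(flp_inj σ).encard_image]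
      exact hlt
    · rintro _ ⟨c, hc, rfl⟩
      exact hA hc
  out := C.out

theorem sgnC_holds {I : Type} {s M : ℕ} (σ : I → Bool) (C : GCircuit I s M) (y : I → Bool)
    (g : Fin s) : (sgnC σ C).Holds y g ↔ C.Holds (fun i => xor (σ i) (y i)) g := by
  have key : ∀ N : ℕ, ∀ g : Fin s, (g : ℕ) < N →
      ((sgnC σ C).Holds y g ↔ C.Holds (fun i => xor (σ i) (y i)) g) := by
    intro N
    induction N with
    | zero => intro g hg; omega
    | succ N ih =>
      intro g hg
      have e : {c | ∃ _h : c ∈ (sgnC σ C).wires g, ((sgnC σ C).Holds y c.1 ↔ c.2 = true)} =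
          {c | ∃ _h : c ∈ C.wires g, (C.Holds (fun i => xor (σ i) (y i)) c.1 ↔ c.2 = true)} := by
        apply Set.ext
        intro c
        constructor
        · rintro ⟨hc, h1⟩
          have h2 : c.1 < g := C.topo g c hc
          exact ⟨hc, (ih c.1 (by omega)).symm.trans h1⟩
        · rintro ⟨hc, h1⟩
          have h2 : c.1 < g := C.topo g c hc
          exact ⟨hc, (ih c.1 (by omega)).trans h1⟩
      have e2 : flp σ '' {c | c ∈ (sgnC σ C).lits g ∧ y c.1 = c.2} =
          {c | c ∈ C.lits g ∧ xor (σ c.1) (y c.1) = c.2} := by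
        apply Set.ext
        intro c
        constructor
        · rintro ⟨c', ⟨h1, h2⟩, rfl⟩
          refine ⟨h1, ?_⟩
          show xor (σ c'.1) (y c'.1) = xor (σ c'.1) c'.2
          rw [h2]
        · rintro ⟨h1, h2⟩
          refine ⟨flp σ c, ⟨?_, ?_⟩, flp_flp σ c⟩
          · show flp σ (flp σ c) ∈ C.lits g
            rw [flp_flp]
            exact h1
          · show y c.1 = xor (σ c.1) c.2
            rw [← h2]
            cases σ c.1 <;> cases y c.1 <;> rfl
      rw [GCircuit.Holds, GCircuit.Holds, e]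
      show C.op g (flp σ '' {c | c ∈ (sgnC σ C).lits g ∧ y c.1 = c.2}) _ ↔ _
      rw [e2]
  exact key s g g.2

/-- RLB -/
theorem rlb : T_RLB := by
  intro I s M C σ
  exact ⟨sgnC σ C, rfl, fun d hd => hd, fun y g => sgnC_holds σ C y g⟩

end Pool.Agent.H33.QF
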